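import Pool.Agent.PFE.StmtsE2

/-!
# Squad PFE, row GFR: the frame of `Γ`
-/

set_option autoImplicit false

open scoped BigOperators

noncomputable section

namespace Pool.Agent.PFE.H52

open MulOpposite
open Pool.Agent.PFE
open Pool.Agent.PFC.B1 (FS Split BiM Sep)
open Pool.Agent.PFC (tw)
open Pool.Agent.PFD (RF)
open Pool.Agent.PFD.D2
open Pool.Agent.PFD.D2b (wrp FPl FrR)

section

variable {R Γ W : Type} [CommRing R] [CommRing Γ] [Algebra R Γ] [CommGroup W] [Fintype W] {l : ℕ}

/-- the two sided action of `W × W` on `W` -/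
@[reducible] def gfrAct (W : Type) [CommGroup W] : MulAction (W × W) W where
  smul := fun p w => p.1 * w * p.2⁻¹
  one_smul := fun w => by
    change (1 : W) * w * (1 : W)⁻¹ = w
    rw [one_mul, inv_one, mul_one]
  mul_smul := fun p p' w => by
    change (p.1 * p'.1) * w * (p.2 * p'.2)⁻¹ = p.1 * (p'.1 * w * p'.2⁻¹) * p.2⁻¹
    rw [mul_inv_rev]
    simp only [mul_assoc]

/-- the empty action -/
@[reducible] def gfrEmp (W : Type) [CommGroup W] : MulAction (W × W) Empty where
  smul := fun _ e => e
  one_smul := fun e => e.elim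
  mul_smul := fun _ _ e => e.elim

theorem gfr_spl {M : Type} [AddCommMonoid M] (f : ℕ → M) {a b l : ℕ} (h : a + b = l) :
    ∑ x ∈ Finset.range l, f x = ∑ x ∈ Finset.range a, f x + ∑ x ∈ Finset.range b, f (a + x) := by
  subst h
  exact Finset.sum_range_add f a b

theorem gfr_co (G : GY R Γ W l) (n : Γ) (w : W) (i : ℕ) (hi : i < l) :
    G.co (l - 1) w (G.y ^ (l - 1 - i) * n) = G.co i w n := by
  set m := l - 1 - i with hm
  have hlm : l - m = i + 1 := by omega
  have hml : m + (l - m) = l := by omega
  have hml' : (l - m) + m = l := by omega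
  have h1 : G.y ^ m * n = ∑ k ∈ Finset.range l, ∑ v, (if m ≤ k then G.co (k - m) v n else 0) •
      (G.y ^ k * G.om v) := by
    conv_lhs => rw [← G.ex n]
    rw [Finset.mul_sum]
    have e1 : ∑ k ∈ Finset.range l, G.y ^ m * ∑ v, G.co k v n • (G.y ^ k * G.om v) =
        ∑ k ∈ Finset.range (l - m), ∑ v, G.co k v n • (G.y ^ (m + k) * G.om v) := by
      rw [gfr_spl _ hml']
      have e2 : ∑ x ∈ Finset.range m, G.y ^ m * ∑ v, G.co (l - m + x) v n •
          (G.y ^ (l - m + x) * G.om v) = 0 := by
        refine Finset.sum_eq_zero fun x _ => ?_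
        rw [Finset.mul_sum]
        refine Finset.sum_eq_zero fun v _ => ?_
        rw [mul_smul_comm, ← mul_assoc, ← pow_add]
        have e3 : G.y ^ (m + (l - m + x)) = 0 := by
          have e4 : m + (l - m + x) = l + x := by omega
          rw [e4, pow_add, G.yl, zero_mul]
        rw [e3, zero_mul, smul_zero]
      rw [e2, add_zero]
      refine Finset.sum_congr rfl fun k _ => ?_
      rw [Finset.mul_sum]
      refine Finset.sum_congr rfl fun v _ => ?_
      rw [mul_smul_comm, ← mul_assoc, ← pow_add]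
    have e5 : ∑ k ∈ Finset.range l, ∑ v, (if m ≤ k then G.co (k - m) v n else 0) •
        (G.y ^ k * G.om v) =
        ∑ k ∈ Finset.range (l - m), ∑ v, G.co k v n • (G.y ^ (m + k) * G.om v) := by
      rw [gfr_spl _ hml]
      have e6 : ∑ k ∈ Finset.range m, ∑ v, (if m ≤ k then G.co (k - m) v n else 0) •
          (G.y ^ k * G.om v) = 0 := by
        refine Finset.sum_eq_zero fun k hk => Finset.sum_eq_zero fun v _ => ?_
        rw [if_neg (not_le.2 (Finset.mem_range.1 hk)), zero_smul]
      rw [e6, zero_add]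
      refine Finset.sum_congr rfl fun k _ => Finset.sum_congr rfl fun v _ => ?_
      rw [if_pos (Nat.le_add_right _ _), Nat.add_sub_cancel_left]
    rw [e1, e5]
  rw [h1]
  have h2 := G.un (fun k v => if m ≤ k then G.co (k - m) v n else 0) (l - 1) w (by omega)
  rw [h2, if_pos (by omega)]
  have h3 : l - 1 - m = i := by omega
  rw [h3]

theorem gfr_cw (G : GY R Γ W l) (hl : 1 ≤ l) (n : Γ) (u v w : W) :
    G.co (l - 1) (u * w * v⁻¹) (G.om u * (n * G.om v⁻¹)) = G.co (l - 1) w n := by
  have h1 : G.om u * (n * G.om v⁻¹) = ∑ k ∈ Finset.range l, ∑ x, G.co k (u⁻¹ * x * v) n •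
      (G.y ^ k * G.om x) := by
    conv_lhs => rw [← G.ex n]
    rw [Finset.sum_mul, Finset.mul_sum]
    refine Finset.sum_congr rfl fun k _ => ?_
    rw [Finset.sum_mul, Finset.mul_sum]
    refine Fintype.sum_equiv ((Equiv.mulLeft u).trans (Equiv.mulRight v⁻¹)) _ _ fun x => ?_
    change G.om u * (G.co k x n • (G.y ^ k * G.om x) * G.om v⁻¹) =
      G.co k (u⁻¹ * (u * x * v⁻¹) * v) n • (G.y ^ k * G.om (u * x * v⁻¹))
    have e1 : u⁻¹ * (u * x * v⁻¹) * v = x := by
      rw [mul_assoc u, inv_mul_cancel_left, inv_mul_cancel_right]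
    rw [e1, smul_mul_assoc, mul_smul_comm, map_mul G.om, map_mul G.om]
    congr 1
    ring
  rw [h1, G.un (fun k x => G.co k (u⁻¹ * x * v) n) (l - 1) _ (by omega)]
  have e2 : u⁻¹ * (u * w * v⁻¹) * v = w := by
    rw [mul_assoc u, inv_mul_cancel_left, inv_mul_cancel_right]
  rw [e2]

end

theorem gfr : GfrStmt := by
  intro R Γ W X _ _ _ _ _ _ l G χ hl
  refine ⟨W, Empty, inferInstance, inferInstance, gfrAct W, gfrEmp W, ⟨?_⟩⟩
  letI := gfrAct W
  letI := gfrEmp W
  exact
    { deg := fun _ => 1
      dg := fun _ _ => rfl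
      fo := by
        intro w o h
        change (1 : W) * o * w⁻¹ = o at h
        rw [one_mul, mul_eq_left, inv_eq_one] at h
        exact h
      fo' := fun _ o => o.elim
      g := G.om
      gw := by
        intro w o
        change G.om (w.1 * o * w.2⁻¹) = G.om w.1 * (G.om o * G.om w.2⁻¹)
        rw [map_mul G.om, map_mul G.om, mul_assoc]
      gy := by
        intro o
        change G.y * G.om o = χ 1 • (G.om o * G.y)
        rw [map_one χ, one_smul, mul_comm]
      c := fun w => G.co (l - 1) w
      cw := by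
        intro w o n
        exact gfr_cw G hl n w.1 w.2 o
      cy := by
        intro o n
        change G.co (l - 1) o (G.y * n) = χ 1 * G.co (l - 1) o (n * G.y)
        rw [map_one χ, one_mul, mul_comm]
      h := fun e => e.elim
      hw := fun _ e => e.elim
      d := fun e => e.elim
      dw := fun _ e => e.elim
      fr := by
        intro n
        rw [Finset.univ_eq_empty (α := Empty), Finset.sum_empty, add_zero]
        change ∑ o, ∑ i ∈ Finset.range l, G.co (l - 1) o (G.y ^ (l - 1 - i) * n) •
          (G.y ^ i * G.om o) = n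
        rw [Finset.sum_comm]
        conv_rhs => rw [← G.ex n]
        refine Finset.sum_congr rfl fun i hi => Finset.sum_congr rfl fun o _ => ?_
        rw [gfr_co G n o i (Finset.mem_range.1 hi)] }

end Pool.Agent.PFE.H52
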