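import Pool.Agent.PFE.StmtsE1

set_option autoImplicit false

open scoped BigOperators

noncomputable section

namespace Pool.Agent.PFE.H52

open Pool.Agent.PFE
open Pool.Agent.PFC.B1 (FS Split)
open Pool.Agent.PFD (RF FotStmt)

section

variable {R A X : Type} [CommRing R] [Ring A] [Algebra R A] [Group X] {y : A} {χ : X →* R}

theorem pow_Nx {x : X} {n : A} (hn : n ∈ Nx y χ x) (j : ℕ) :
    y ^ j * n = χ x ^ j • (n * y ^ j) := by
  induction j with
  | zero => rw [pow_zero, pow_zero, one_smul, one_mul, mul_one]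
  | succ j ih =>
    have hn' : y * n = χ x • (n * y) := hn
    rw [pow_succ, mul_assoc, hn', mul_smul_comm, ← mul_assoc, ih, smul_mul_assoc, smul_smul,
      mul_assoc, ← pow_succ']

theorem pow_Nx' {l : ℕ} (hl : ∀ x, χ x ^ (l - 1) = 1) {x : X} {n : A} (hn : n ∈ Nx y χ x) :
    y ^ (l - 1) * n = n * y ^ (l - 1) := by
  rw [pow_Nx hn, hl, one_smul]

end

section

variable {R A X S J Ω Ω' : Type} [CommRing R] [Ring A] [Algebra R A] [Group X] [Fintype X]
    [Ring S] [Algebra R S] [Fintype J] [Fintype Ω] [Fintype Ω'] {y : A} {l : ℕ} {χ : X →* R}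
    (D : Yd R A X J Ω Ω' y l χ) (L : LS R A X S y l χ)

include D in
theorem g'_mem (o : Ω) : D.g' o ∈ Nx y χ (D.deg o)⁻¹ := by
  show y * D.g' o = χ (D.deg o)⁻¹ • (D.g' o * y)
  rw [D.g'y, smul_smul, ← map_mul, inv_mul_cancel, map_one, one_smul]

/-- the functional vanishes on the ideal -/
theorem lam_Jx {x : X} {a : A} (ha : a ∈ Jx y l χ x) : D.d.lam (y ^ (l - 1) * a) = 0 := by
  have hl := D.hl
  induction ha using Submodule.span_induction with
  | mem b h =>
    rcases h with ⟨a, rfl⟩ | ⟨n, _, rfl⟩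
    · unfold Tx
      rw [Finset.mul_sum, map_sum]
      refine Finset.sum_eq_zero fun j hj => ?_
      have hj' : j < l := Finset.mem_range.mp hj
      have h1 : y ^ (l - 1) * (y ^ j * a * y ^ (l - 1 - j)) =
          (y ^ (l - 1) * y ^ j) * (a * y ^ (l - 1 - j)) := by
        simp only [mul_assoc]
      have h2 : a * y ^ (l - 1 - j) * (y ^ (l - 1) * y ^ j) = a * y ^ (l + (l - 2)) := by
        rw [mul_assoc, ← pow_add, ← pow_add]
        congr 2
        omega
      rw [mul_smul_comm, map_smul, h1, D.ds, h2, pow_add, D.yl, zero_mul, mul_zero, map_zero,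
        smul_zero]
    · rw [← mul_assoc, ← pow_succ]
      have h1 : l - 1 + 1 = l := by omega
      rw [h1, D.yl, zero_mul, map_zero]
  | zero => rw [mul_zero, map_zero]
  | add a b _ _ h1 h2 => rw [mul_add, map_add, h1, h2, add_zero]
  | smul r a _ h1 => rw [mul_smul_comm, map_smul, h1, smul_zero]

/-- a lift of the part of degree `x` -/
def lft (x : X) (s : S) : Nx y χ x := Classical.choose (L.ps x s)

theorem lft_spec (x : X) (s : S) : L.p x (lft L x s) = L.c x s := Classical.choose_spec (L.ps x s)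

theorem lam_wd {x : X} {a b : Nx y χ x} (h : L.p x a = L.p x b) :
    D.d.lam (y ^ (l - 1) * (a : A)) = D.d.lam (y ^ (l - 1) * (b : A)) := by
  have h1 : L.p x (a - b) = 0 := by rw [map_sub, h, sub_self]
  have h2 := lam_Jx D ((L.ker x (a - b)).mp h1)
  rw [Submodule.coe_sub, mul_sub, map_sub, sub_eq_zero] at h2
  exact h2

/-- the form of `S` -/
def tau : S →ₗ[R] R where
  toFun := fun s => ∑ x, D.d.lam (y ^ (l - 1) * (lft L x s : A))
  map_add' := fun s t => by
    rw [← Finset.sum_add_distrib]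
    refine Finset.sum_congr rfl fun x _ => ?_
    rw [← map_add, ← mul_add, ← Submodule.coe_add]
    apply lam_wd D L
    rw [lft_spec, map_add, map_add, lft_spec, lft_spec]
  map_smul' := fun r s => by
    rw [RingHom.id_apply, Finset.smul_sum]
    refine Finset.sum_congr rfl fun x _ => ?_
    rw [← map_smul, ← mul_smul_comm, ← Submodule.coe_smul]
    apply lam_wd D L
    rw [lft_spec, map_smul, map_smul, lft_spec]

theorem tau_p (x : X) (a : Nx y χ x) : tau D L (L.p x a) = D.d.lam (y ^ (l - 1) * (a : A)) := by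
  classical
  change ∑ x', D.d.lam (y ^ (l - 1) * (lft L x' (L.p x a) : A)) = _
  rw [Finset.sum_eq_single x]
  · apply lam_wd D L
    rw [lft_spec, L.pc]
  · intro x' _ hx'
    have h1 : D.d.lam (y ^ (l - 1) * (lft L x' (L.p x a) : A)) =
        D.d.lam (y ^ (l - 1) * ((0 : Nx y χ x') : A)) := by
      apply lam_wd D L
      rw [lft_spec, ← L.pc x a, L.co x' x _ hx', map_zero]
    rw [h1, Submodule.coe_zero, mul_zero, map_zero]
  · intro h
    exact absurd (Finset.mem_univ _) h

theorem ind_S {P : S → Prop} (h0 : ∀ s t, P s → P t → P (s + t)) (hz : P 0)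
    (h1 : ∀ x a, P (L.p x a)) (s : S) : P s := by
  classical
  rw [← L.cs s]
  induction (Finset.univ : Finset X) using Finset.induction_on with
  | empty =>
    rw [Finset.sum_empty]
    exact hz
  | insert x T hx ih =>
    rw [Finset.sum_insert hx]
    refine h0 _ _ ?_ ih
    obtain ⟨a, ha⟩ := L.ps x s
    rw [← ha]
    exact h1 x a

theorem tau_c (x : X) (s : S) (hx : x ≠ 1) : tau D L (L.c x s) = 0 := by
  obtain ⟨a, ha⟩ := L.ps x s
  rw [← ha, tau_p]
  have hl := D.hl
  have h1 : D.d.lam (y ^ (l - 1) * (a : A)) = χ x * D.d.lam (y ^ (l - 1) * (a : A)) := by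
    have h2 : y ^ (l - 1) = y ^ (l - 2) * y := by
      rw [← pow_succ]
      congr 1
      omega
    have h2' : y ^ (l - 1) = y * y ^ (l - 2) := by
      rw [← pow_succ']
      congr 1
      omega
    have h3 : y * (a : A) = χ x • ((a : A) * y) := a.2
    conv_lhs => rw [h2, mul_assoc, h3, mul_smul_comm, map_smul, ← mul_assoc, D.ds, ← mul_assoc,
      ← h2', smul_eq_mul]
  have h4 : (1 - χ x) * D.d.lam (y ^ (l - 1) * (a : A)) = 0 := by
    rw [sub_mul, one_mul, ← h1, sub_self]
  exact (D.χu x hx).mul_right_eq_zero.mp h4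

theorem tau_sym (s t : S) : tau D L (s * t) = tau D L (t * s) := by
  induction s using ind_S L with
  | h0 s s' h h' => rw [add_mul, mul_add, map_add, map_add, h, h']
  | hz => rw [zero_mul, mul_zero]
  | h1 x a =>
    induction t using ind_S L with
    | h0 s s' h h' => rw [add_mul, mul_add, map_add, map_add, h, h']
    | hz => rw [zero_mul, mul_zero]
    | h1 x' b =>
      rw [L.mul, L.mul, tau_p, tau_p]
      change D.d.lam (y ^ (l - 1) * ((a : A) * b)) = D.d.lam (y ^ (l - 1) * ((b : A) * a))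
      rw [← mul_assoc, D.ds, ← mul_assoc, ← pow_Nx' D.χl b.2, mul_assoc]

theorem tau_g' (o : Ω) (x : X) (a : Nx y χ x) :
    tau D L (L.p (D.deg o)⁻¹ ⟨D.g' o, g'_mem D o⟩ * L.p x a) =
      D.d.lam (D.g' o * y ^ (l - 1) * a) := by
  rw [L.mul, tau_p]
  change D.d.lam (y ^ (l - 1) * (D.g' o * a)) = _
  rw [← mul_assoc, pow_Nx' D.χl (g'_mem D o)]

theorem h1' (nfr : NfrStmt) (s : S) :
    ∑ o, tau D L (L.p (D.deg o)⁻¹ ⟨D.g' o, g'_mem D o⟩ * s) • L.p (D.deg o) ⟨D.g o, D.gy o⟩ =
      s := by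
  classical
  have hl := D.hl
  induction s using ind_S L with
  | h0 s s' h h' =>
    conv_rhs => rw [← h, ← h']
    simp only [mul_add, map_add, add_smul, Finset.sum_add_distrib]
  | hz => simp only [mul_zero, map_zero, zero_smul, Finset.sum_const_zero]
  | h1 x a =>
    obtain ⟨n1, -, n3⟩ := nfr R A X J Ω Ω' y l χ D
    set m : Ω → Nx y χ x := fun o => if h : D.deg o = x then ⟨D.g o, h ▸ D.gy o⟩ else 0 with hm
    have h2 : ∀ o, tau D L (L.p (D.deg o)⁻¹ ⟨D.g' o, g'_mem D o⟩ * L.p x a) •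
        L.p (D.deg o) ⟨D.g o, D.gy o⟩ = D.d.lam (D.g' o * y ^ (l - 1) * a) • L.p x (m o) := by
      intro o
      rw [tau_g']
      by_cases h : D.deg o = x
      · subst h
        rw [hm]
        simp only
        rw [dif_pos trivial]
      · rw [n1 x a a.2 o (l - 1) h (by omega), zero_smul, zero_smul]
    rw [Finset.sum_congr rfl fun o _ => h2 o]
    simp only [← map_smul, ← map_sum]
    symm
    rw [← sub_eq_zero, ← map_sub, L.ker]
    have h3 := n3 x a a.2
    have h4 : ((a - ∑ o, D.d.lam (D.g' o * y ^ (l - 1) * (a : A)) • m o : Nx y χ x) : A) =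
        (a : A) - ∑ o, if D.deg o = x then
          D.d.lam (D.g' o * y ^ (l - 1) * (a : A)) • D.g o else 0 := by
      rw [Submodule.coe_sub, Submodule.coe_sum]
      congr 1
      refine Finset.sum_congr rfl fun o _ => ?_
      rw [Submodule.coe_smul, hm]
      simp only
      by_cases h : D.deg o = x
      · rw [dif_pos h, if_pos h]
      · rw [dif_neg h, if_neg h, Submodule.coe_zero, smul_zero]
    rw [h4]
    exact h3

end

theorem stf (nfr : NfrStmt) : StfStmt := by
  intro R A X S J Ω Ω' _ _ _ _ _ _ _ _ _ _ y l χ D L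
  have hh2 : ∀ s, ∑ o, tau D L (s * L.p (D.deg o) ⟨D.g o, D.gy o⟩) •
      L.p (D.deg o)⁻¹ ⟨D.g' o, g'_mem D o⟩ = s := by
    intro s
    rw [← sub_eq_zero]
    set z : S := ∑ o, tau D L (s * L.p (D.deg o) ⟨D.g o, D.gy o⟩) •
      L.p (D.deg o)⁻¹ ⟨D.g' o, g'_mem D o⟩ - s with hz
    have h1 : ∀ b, tau D L (z * b) = 0 := by
      intro b
      have h2 : tau D L (s * b) = ∑ o, tau D L (L.p (D.deg o)⁻¹ ⟨D.g' o, g'_mem D o⟩ * b) *
          tau D L (s * L.p (D.deg o) ⟨D.g o, D.gy o⟩) := by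
        conv_lhs => rw [← h1' D L nfr b]
        rw [Finset.mul_sum, map_sum]
        refine Finset.sum_congr rfl fun o _ => ?_
        rw [mul_smul_comm, map_smul, smul_eq_mul]
      rw [hz, sub_mul, map_sub, h2, Finset.sum_mul, map_sum, ← Finset.sum_sub_distrib]
      refine Finset.sum_eq_zero fun o _ => ?_
      rw [smul_mul_assoc, map_smul, smul_eq_mul, mul_comm, sub_self]
    rw [← h1' D L nfr z]
    refine Finset.sum_eq_zero fun o _ => ?_
    rw [tau_sym, h1, zero_smul]
  exact ⟨{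
    lam := tau D L
    b := fun o => L.p (D.deg o) ⟨D.g o, D.gy o⟩
    b' := fun o => L.p (D.deg o)⁻¹ ⟨D.g' o, g'_mem D o⟩
    h1 := h1' D L nfr
    h2 := hh2 }, g'_mem D, tau_sym D L, tau_c D L, fun o => rfl, fun o => rfl, tau_p D L⟩

end Pool.Agent.PFE.H52
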